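import Pool.Agent.H73.GWT.Stmts

set_option autoImplicit false

open Classical

namespace GWT

theorem prw_append48 {G : Type*} [Group G] (a b : G) (l l' : List Bool) :
    prw a b (l ++ l') = prw a b l * prw a b l' := by
  simp [prw]

/-- the word of a list of patterns -/
def wl48 {S : Type*} (ua ub : List S) (l : List Bool) : List S :=
  (l.map (fun x => if x then ub else ua)).flatten

theorem wl48_len {S : Type*} (ua ub : List S) (h : ua.length = ub.length) (l : List Bool) :
    (wl48 ua ub l).length = l.length * ua.length := by
  induction l with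
  | nil => simp [wl48]
  | cons x l ih =>
    have h1 : wl48 ua ub (x :: l) = (if x then ub else ua) ++ wl48 ua ub l := by
      simp [wl48]
    rw [h1, List.length_append, ih, List.length_cons]
    cases x <;> simp [← h] <;> ring

theorem wl48_ev {S G : Type*} [Group G] (e : S → G) (ua ub : List S) (l : List Bool) :
    GWP.ev e (wl48 ua ub l) = prw (GWP.ev e ua) (GWP.ev e ub) l := by
  induction l with
  | nil => simp [wl48, prw, GWP.ev]
  | cons x l ih =>
    have h1 : wl48 ua ub (x :: l) = (if x then ub else ua) ++ wl48 ua ub l := by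
      simp [wl48]
    rw [h1, GWP.ev_append, ih]
    cases x <;> simp [prw]

theorem big48 (N : ℕ) (hN : 5 ≤ N) : 96 * N * N + 4 ≤ 8 ^ N := by
  induction N, hN using Nat.le_induction with
  | base => norm_num
  | succ n hn ih =>
    rw [pow_succ]
    nlinarith

theorem AL3.{u, v, w} (S : Type w) (G : Type u) (V : Type v) [Group G] [MulAction G V]
    (h1 : AL1Stmt G V) (h2 : AL2Stmt G V) : AL3Stmt.{u, v, w} S G V := by
  intro T hT hact o a b ℓ hℓ ha hb hab hno e ua ub hlen hua hub
  have h1' := h1 T hT hact o a b ℓ hℓ ha hb hab
  have h2' := h2 T hT hact o a b ℓ hℓ ha hb hab hno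
  obtain ⟨N, hN⟩ : ∃ N : ℕ, N = ℓ + 5 := ⟨_, rfl⟩
  have hN5 : 5 ≤ N := by omega
  have hNl : ℓ ≤ N := by omega
  have hN1 : 1 ≤ N * ℓ := Nat.mul_pos (by omega) (by omega)
  have hua1 : 1 ≤ ua.length := by
    rcases Nat.eq_zero_or_pos ua.length with h | h
    · exfalso
      have h3 : ua = [] := List.length_eq_zero_iff.mp h
      rw [h3] at hua
      have h4 : a = 1 := by rw [← hua]; rfl
      rw [h4, one_smul] at ha
      simp at ha
      omega
    · exact h
  have hpow : ∀ l : List Bool, prw a b l ^ 4 = prw a b (l ++ l ++ l ++ l) := by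
    intro l
    rw [prw_append48, prw_append48, prw_append48]
    simp only [pow_succ, pow_zero, one_mul]
  let C : Code (Fin (4 * N) → Bool) G V :=
    { T := T
      tree := hT
      act := hact
      o := o
      c := fun s => prw a b (List.ofFn s)
      Λ := 4 * N * ℓ
      M := 2 ^ N
      Λ_pos := by nlinarith
      M_big := by
        calc 32 = 2 ^ 5 := by norm_num
          _ ≤ 2 ^ N := Nat.pow_le_pow_right (by norm_num) hN5
      card := by
        rw [Fintype.card_fun, Fintype.card_bool, Fintype.card_fin, ← pow_mul, mul_comm]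
      lam := by
        have h3 := big48 N hN5
        have h4 : (2 ^ N) ^ 3 = 8 ^ N := by
          rw [← pow_mul, mul_comm, pow_mul]
          norm_num
        rw [h4]
        have h5 : 4 * (6 * (4 * N * ℓ) + 1) ≤ 96 * N * N + 4 := by
          have h6 : N * ℓ ≤ N * N := Nat.mul_le_mul_left _ hNl
          nlinarith
        omega
      d1 := by
        intro s
        have h3 := (h1' (List.ofFn s)).1
        rw [List.length_ofFn] at h3
        exact h3
      d4 := by
        intro s
        show T.dist o (prw a b (List.ofFn s) ^ 4 • o) = 4 * (4 * N * ℓ)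
        rw [hpow, (h1' _).1]
        simp only [List.length_append, List.length_ofFn]
        ring
      p3 := by
        intro s t g hg h3
        have h4 := h2' (List.ofFn s) (List.ofFn t) (by simp) g hg h3
        exact List.ofFn_injective h4 }
  refine ⟨4 * N, C, fun s => wl48 ua ub (List.ofFn s ++ List.ofFn s ++ List.ofFn s ++ List.ofFn s),
    16 * N * ua.length, rfl, rfl, ?_, ?_, ?_⟩
  · exact Nat.mul_pos (by omega) (by omega)
  · intro s
    rw [wl48_len ua ub hlen]
    simp only [List.length_append, List.length_ofFn]
    ring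
  · intro s
    rw [wl48_ev, hua, hub]
    exact (hpow _).symm

end GWT
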