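import Pool.Agent.H73.GWT.Stmts

set_option autoImplicit false

open Classical

namespace GWT

variable {ι G V : Type*} [Fintype ι] [Group G] [MulAction G V] (C : Code ι G V)

theorem d_ev48 {S : Type*} (e : S → G) (D : ℕ) (hD : ∀ s, C.d C.o (e s • C.o) ≤ D)
    (b : List S) : C.d C.o (GWP.ev e b • C.o) ≤ D * b.length := by
  induction b with
  | nil => simp [GWP.ev]
  | cons s b ih =>
    rw [GWP.ev_cons, mul_smul, List.length_cons]
    have h1 : C.d C.o (e s • GWP.ev e b • C.o) ≤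
        C.d C.o (e s • C.o) + C.d C.o (GWP.ev e b • C.o) := by
      have h1 := dtri C.tree C.o (e s • C.o) (e s • GWP.ev e b • C.o)
      rw [C.ds] at h1
      exact h1
    have h2 := hD s
    calc _ ≤ _ := h1
      _ ≤ D + D * b.length := Nat.add_le_add h2 ih
      _ = D * (b.length + 1) := by ring

theorem ev_flatten48 {S G : Type*} [Group G] (e : S → G) (bs : List (List S)) :
    GWP.ev e bs.flatten = (bs.map (GWP.ev e)).prod := by
  induction bs with
  | nil => rfl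
  | cons b bs ih => rw [List.flatten_cons, GWP.ev_append, ih, List.map_cons, List.prod_cons]

theorem kap48 (L : ℕ) (hL : 1 ≤ L) : ∃ κ : ℝ, 0 < κ ∧ κ < 1 ∧
    ∀ n : ℕ, (1 / 2 : ℝ) ^ (n / L) ≤ 2 * κ ^ n := by
  have hL' : (0 : ℝ) < L := by exact_mod_cast hL
  have hκ0 : (0 : ℝ) < (1 / 2 : ℝ) ^ ((1 : ℝ) / L) := Real.rpow_pos_of_pos (by norm_num) _
  have hκ1 : (1 / 2 : ℝ) ^ ((1 : ℝ) / L) < 1 :=
    Real.rpow_lt_one (by norm_num) (by norm_num) (by positivity)
  have hκL : ((1 / 2 : ℝ) ^ ((1 : ℝ) / L)) ^ L = 1 / 2 := by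
    rw [← Real.rpow_natCast, ← Real.rpow_mul (by norm_num), one_div_mul_cancel hL'.ne',
      Real.rpow_one]
  generalize (1 / 2 : ℝ) ^ ((1 : ℝ) / L) = κ at hκ0 hκ1 hκL
  refine ⟨κ, hκ0, hκ1, fun n => ?_⟩
  have e1 : κ ^ n = (1 / 2 : ℝ) ^ (n / L) * κ ^ (n % L) := by
    conv_lhs => rw [← Nat.div_add_mod n L]
    rw [pow_add, pow_mul, hκL]
  have e2 : (1 / 2 : ℝ) ≤ κ ^ (n % L) := by
    calc (1 / 2 : ℝ) = κ ^ L := hκL.symm
      _ ≤ κ ^ (n % L) := pow_le_pow_of_le_one hκ0.le hκ1.le (Nat.mod_lt _ hL).le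
  rw [e1]
  have e3 : (0 : ℝ) < (1 / 2 : ℝ) ^ (n / L) := by positivity
  nlinarith

theorem ite_inst48 (p : Prop) (i j : Decidable p) (a b : ℝ) :
    @ite ℝ p i a b = @ite ℝ p j a b := by
  rw [Subsingleton.elim i j]

theorem GFN (h1 : ∀ (S : Type) [Fintype S], CT3Stmt C S) (h2 : ∀ B : Type, SOUStmt C B)
    (h3 : ∀ (S : Type) [Fintype S], RUNStmt S) (h4 : ∀ S : Type, BLOStmt S) (h5 : CPUStmt) :
    GFNStmt C := by
  intro k e wd k₀ hk₀ hlen hev
  obtain ⟨D, hD1, hD⟩ : ∃ D : ℕ, 1 ≤ D ∧ ∀ s, C.d C.o (e s • C.o) ≤ D := by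
    refine ⟨max 1 (Finset.univ.sup fun s => C.d C.o (e s • C.o)), le_max_left _ _, fun s => ?_⟩
    exact le_trans (Finset.le_sup (f := fun s => C.d C.o (e s • C.o)) (Finset.mem_univ s))
      (le_max_right _ _)
  obtain ⟨R, hR⟩ := h1 (Fin k × Bool) e D hD1 hD wd k₀ hk₀ hlen hev
  obtain ⟨L, c₁, θ, hL, hc₁, hθ, h8, h6, hsh, hcmp⟩ := hR ((1 / 16) ^ R / 4) (by positivity)
  obtain ⟨g1, hg1⟩ : ∃ g1 : List (Fin k × Bool) → Bool,
      ∀ b, g1 b = true ↔ C.d C.o (GWP.ev e b • C.o) < c₁ :=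
    ⟨fun b => decide (C.d C.o (GWP.ev e b • C.o) < c₁), fun b => decide_eq_true_iff⟩
  obtain ⟨g2, hg2⟩ : ∃ g2 : List (Fin k × Bool) → List (Fin k × Bool) → Bool,
      ∀ c b, g2 c b = true ↔ Cmp C θ (GWP.ev e c) (GWP.ev e b) :=
    ⟨fun c b => decide (Cmp C θ (GWP.ev e c) (GWP.ev e b)), fun c b => decide_eq_true_iff⟩
  refine ⟨fun w => ∃ cfg ∈ runs (fun b => g1 (b.take L)) (fun c b => g2 (c.take L) (b.take L))
      (blocks L w), (blocks L w).length ≤ R * (cfg.2 + 1), h5 k L R g1 g2, ?_, ?_⟩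
  · intro w hw
    obtain ⟨hb1, hb2, hb3, -⟩ := (h4 (Fin k × Bool) L hL).1 w
    have key := h2 (List (Fin k × Bool)) (GWP.ev e) (fun b => g1 (b.take L))
      (fun c b => g2 (c.take L) (b.take L)) θ (D * L) c₁ R (fun b => b.length = L) hc₁ h8 h6
    refine key ?_ ?_ ?_ (blocks L w) hb1 ?_
    · intro b hb
      have := d_ev48 C e D hD b
      rw [hb] at this
      exact this
    · intro b hb hlt
      show g1 (b.take L) = true
      rw [List.take_of_length_le (le_of_eq hb), hg1]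
      exact hlt
    · intro c b hc hb hcb
      show g2 (c.take L) (b.take L) = true
      rw [List.take_of_length_le (le_of_eq hb), List.take_of_length_le (le_of_eq hc), hg2]
      exact hcb
    · rw [← ev_flatten48]
      have hx : GWP.ev e (blocks L w).flatten * GWP.ev e (w.drop (L * (w.length / L))) = 1 := by
        rw [← GWP.ev_append, ← hb2, hw]
      have hx2 : GWP.ev e (blocks L w).flatten
          = (GWP.ev e (w.drop (L * (w.length / L))))⁻¹ := eq_inv_of_mul_eq_one_left hx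
      rw [hx2]
      have h7 : C.d C.o ((GWP.ev e (w.drop (L * (w.length / L))))⁻¹ • C.o)
          = C.d C.o (GWP.ev e (w.drop (L * (w.length / L))) • C.o) := by
        have h8 := C.ds (GWP.ev e (w.drop (L * (w.length / L)))) C.o
          ((GWP.ev e (w.drop (L * (w.length / L))))⁻¹ • C.o)
        rw [smul_inv_smul] at h8
        show C.T.dist _ _ = C.T.dist _ _
        rw [← h8, dcomm]
      rw [h7]
      exact le_trans (d_ev48 C e D hD _) (Nat.mul_le_mul_left _ hb3.le)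
  · have hA : GWP.wsum L (fun b : List (Fin k × Bool) =>
        if g1 (b.take L) = true then (1 : ℝ) else 0) ≤
        (1 / 16) ^ R / 4 * (Fintype.card (Fin k × Bool) : ℝ) ^ L := by
      refine le_trans (le_of_eq (GWP.wsum_congr L _ _ fun b hb => ?_)) hsh
      rw [List.take_of_length_le (le_of_eq hb)]
      by_cases hh : C.d C.o (GWP.ev e b • C.o) < c₁
      · rw [if_pos hh, if_pos ((hg1 b).2 hh)]
      · rw [if_neg hh, if_neg (fun h => hh ((hg1 b).1 h))]
    have hB : ∀ c : List (Fin k × Bool), c.length = L →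
        GWP.wsum L (fun b : List (Fin k × Bool) =>
        if g2 (c.take L) (b.take L) = true then (1 : ℝ) else 0) ≤
        (1 / 16) ^ R / 4 * (Fintype.card (Fin k × Bool) : ℝ) ^ L := by
      intro c hc
      have hdc : C.d C.o (GWP.ev e c • C.o) ≤ D * L := by
        have := d_ev48 C e D hD c
        rwa [hc] at this
      refine le_trans (le_of_eq (GWP.wsum_congr L _ _ fun b hb => ?_)) (hcmp (GWP.ev e c) hdc)
      rw [List.take_of_length_le (le_of_eq hb), List.take_of_length_le (le_of_eq hc)]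
      by_cases hh : Cmp C θ (GWP.ev e c) (GWP.ev e b)
      · rw [if_pos hh, if_pos ((hg2 c b).2 hh)]
      · rw [if_neg hh, if_neg (fun h => hh ((hg2 c b).1 h))]
    have hrun := h3 (Fin k × Bool) (fun b => g1 (b.take L))
      (fun c b => g2 (c.take L) (b.take L)) L R hL hA hB
    obtain ⟨κ, hκ0, hκ1, hκ⟩ := kap48 L hL
    refine ⟨16 ^ R * 2, κ, by positivity, hκ0, hκ1, fun n => ?_⟩
    refine le_trans (le_trans (le_of_eq (GWP.wsum_congr n _ _ fun w _ => ?_)) (hrun n)) ?_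
    · exact ite_inst48 _ _ _ _ _
    · have hq : (0 : ℝ) ≤ (Fintype.card (Fin k × Bool) : ℝ) ^ n := by positivity
      have h16 : (0 : ℝ) ≤ (16 : ℝ) ^ R := by positivity
      have := mul_le_mul_of_nonneg_left (hκ n) h16
      calc _ ≤ 16 ^ R * (2 * κ ^ n) * (Fintype.card (Fin k × Bool) : ℝ) ^ n :=
            mul_le_mul_of_nonneg_right this hq
        _ = _ := by ring

end GWT
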